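import Mathlib

/-!
# Rank functions of differential posets

`p_m = ∑ i ≤ m, β (m - i) * e i` with `e i ≥ 0`.
-/

set_option autoImplicit false

open Finset

namespace Pool.Agent.H157R3.DP

/-- `α_s`: coefficients of `exp (x + x^2 / (2 r))` -/
noncomputable def al (r : ℝ) : ℕ → ℝ
  | 0 => 1
  | 1 => 1
  | (s + 2) => (r * al r (s + 1) + al r s) / ((s + 2) * r)

/-- `γ_s = s! r^s α_s` -/
noncomputable def ga (r : ℝ) : ℕ → ℝ
  | 0 => 1
  | 1 => r
  | (s + 2) => r * ga r (s + 1) + (s + 1) * r * ga r s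

/-- `β_s = α_s γ_s` -/
noncomputable def be (r : ℝ) (s : ℕ) : ℝ := al r s * ga r s

lemma al_succ {r : ℝ} (hr : r ≠ 0) (s : ℕ) :
    al r (s + 2) * ((s + 2) * r) = r * al r (s + 1) + al r s := by
  rw [al]
  have : ((s : ℝ) + 2) ≠ 0 := by positivity
  field_simp

section Poset

variable {P : Type*}

/-- up operator -/
def Uop (dn : P → Finset P) : (P → ℝ) →ₗ[ℝ] (P → ℝ) where
  toFun f := fun y => ∑ x ∈ dn y, f x
  map_add' f g := by ext y; simp [sum_add_distrib]
  map_smul' c f := by ext y; simp [mul_sum]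

lemma Uop_apply (dn : P → Finset P) (f : P → ℝ) (y : P) : Uop dn f y = ∑ x ∈ dn y, f x := rfl

/-- combinatorial data of an `r`-differential poset -/
structure Dat (P : Type*) [DecidableEq P] where
  r : ℕ
  hr : 1 ≤ r
  rk : P → ℕ
  up : P → Finset P
  dn : P → Finset P
  R : ℕ → Finset P
  mem_R : ∀ n x, x ∈ R n ↔ rk x = n
  mem_up : ∀ x y, y ∈ up x ↔ x ∈ dn y
  rk_dn : ∀ x y, x ∈ dn y → rk y = rk x + 1
  card_up : ∀ x, (up x).card = (dn x).card + r
  comm : ∀ x z, x ≠ z → ((up x).filter (fun y => z ∈ dn y)).card = ((dn x).filter (fun y => z ∈ up y)).card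

variable [DecidableEq P] (T : Dat P)

namespace Dat

/-- up operator -/
noncomputable abbrev U : (P → ℝ) →ₗ[ℝ] (P → ℝ) := Uop T.dn
/-- down operator -/
noncomputable abbrev D : (P → ℝ) →ₗ[ℝ] (P → ℝ) := Uop T.up

lemma DU (f : P → ℝ) : T.D (T.U f) = T.U (T.D f) + (T.r : ℝ) • f := by
  ext x
  simp only [Pi.add_apply, Pi.smul_apply, smul_eq_mul, Uop_apply]
  set W : Finset P := (T.up x).biUnion T.dn ∪ (T.dn x).biUnion T.up ∪ {x} with hW
  have hx : x ∈ W := by simp [hW]
  have h1 : ∑ y ∈ T.up x, ∑ z ∈ T.dn y, f z =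
      ∑ z ∈ W, (((T.up x).filter (fun y => z ∈ T.dn y)).card : ℝ) * f z := by
    have h : ∀ y ∈ T.up x, ∑ z ∈ T.dn y, f z = ∑ z ∈ W, if z ∈ T.dn y then f z else 0 := by
      intro y hy
      rw [← sum_filter]
      apply sum_congr _ (fun _ _ => rfl)
      ext z
      simp only [mem_filter, hW, mem_union, mem_biUnion]
      constructor
      · intro hz; exact ⟨Or.inl (Or.inl ⟨y, hy, hz⟩), hz⟩
      · rintro ⟨_, hz⟩; exact hz
    rw [sum_congr rfl h, sum_comm]
    apply sum_congr rfl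
    intro z _
    rw [← sum_filter, sum_const, nsmul_eq_mul]
  have h2 : ∑ y ∈ T.dn x, ∑ z ∈ T.up y, f z =
      ∑ z ∈ W, (((T.dn x).filter (fun y => z ∈ T.up y)).card : ℝ) * f z := by
    have h : ∀ y ∈ T.dn x, ∑ z ∈ T.up y, f z = ∑ z ∈ W, if z ∈ T.up y then f z else 0 := by
      intro y hy
      rw [← sum_filter]
      apply sum_congr _ (fun _ _ => rfl)
      ext z
      simp only [mem_filter, hW, mem_union, mem_biUnion]
      constructor
      · intro hz; exact ⟨Or.inl (Or.inr ⟨y, hy, hz⟩), hz⟩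
      · rintro ⟨_, hz⟩; exact hz
    rw [sum_congr rfl h, sum_comm]
    apply sum_congr rfl
    intro z _
    rw [← sum_filter, sum_const, nsmul_eq_mul]
  rw [h1, h2, ← add_sum_erase _ _ hx, ← add_sum_erase _ _ hx]
  have h3 : (T.up x).filter (fun y => x ∈ T.dn y) = T.up x := by
    apply filter_true_of_mem
    intro y hy
    exact (T.mem_up x y).mp hy
  have h4 : (T.dn x).filter (fun y => x ∈ T.up y) = T.dn x := by
    apply filter_true_of_mem
    intro y hy
    exact (T.mem_up y x).mpr hy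
  rw [h3, h4, T.card_up]
  have h5 : ∑ z ∈ W.erase x, (((T.up x).filter (fun y => z ∈ T.dn y)).card : ℝ) * f z =
      ∑ z ∈ W.erase x, (((T.dn x).filter (fun y => z ∈ T.up y)).card : ℝ) * f z := by
    apply sum_congr rfl
    intro z hz
    rw [T.comm x z (ne_of_mem_erase hz).symm]
  rw [h5]
  push_cast
  ring

/-- pairing on rank `n` -/
noncomputable def ip (n : ℕ) (f g : P → ℝ) : ℝ := ∑ x ∈ T.R n, f x * g x

lemma ip_comm (n : ℕ) (f g : P → ℝ) : T.ip n f g = T.ip n g f := by
  unfold ip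
  exact sum_congr rfl (fun _ _ => mul_comm _ _)

lemma ip_add_right (n : ℕ) (f g h : P → ℝ) : T.ip n f (g + h) = T.ip n f g + T.ip n f h := by
  unfold ip
  rw [← sum_add_distrib]
  exact sum_congr rfl (fun _ _ => by simp only [Pi.add_apply]; ring)

lemma ip_smul_right (n : ℕ) (c : ℝ) (f g : P → ℝ) : T.ip n f (c • g) = c * T.ip n f g := by
  unfold ip
  rw [mul_sum]
  exact sum_congr rfl (fun _ _ => by simp only [Pi.smul_apply, smul_eq_mul]; ring)

lemma ip_zero_right (n : ℕ) (f : P → ℝ) : T.ip n f 0 = 0 := by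
  unfold ip
  exact sum_eq_zero (fun _ _ => by simp)

lemma ip_sum_right {ι : Type*} (n : ℕ) (f : P → ℝ) (s : Finset ι) (g : ι → P → ℝ) :
    T.ip n f (∑ i ∈ s, g i) = ∑ i ∈ s, T.ip n f (g i) := by
  unfold ip
  rw [sum_comm]
  apply sum_congr rfl
  intro x _
  rw [Finset.sum_apply, mul_sum]

lemma adj (n : ℕ) (f g : P → ℝ) : T.ip (n + 1) (T.U f) g = T.ip n f (T.D g) := by
  unfold ip
  simp only [Uop_apply, sum_mul, mul_sum]
  apply sum_comm'
  intro y x
  rw [T.mem_R, T.mem_R, T.mem_up]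
  constructor
  · rintro ⟨h1, h2⟩
    have := T.rk_dn x y h2
    exact ⟨h2, by omega⟩
  · rintro ⟨h1, h2⟩
    have := T.rk_dn x y h1
    exact ⟨by omega, h1⟩

/-- indicator function of rank `n` -/
noncomputable def ind (n : ℕ) : P → ℝ := fun x => if T.rk x = n then 1 else 0

lemma D_ind_zero : T.D (T.ind 0) = 0 := by
  ext x
  rw [Uop_apply]
  apply sum_eq_zero
  intro y hy
  have := T.rk_dn x y ((T.mem_up x y).mp hy)
  unfold ind
  rw [if_neg (by omega)]

lemma D_ind_apply (n : ℕ) (x : P) : T.D (T.ind (n + 1)) x =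
    if T.rk x = n then ((T.up x).card : ℝ) else 0 := by
  rw [Uop_apply]
  split_ifs with h
  · rw [← nsmul_one, ← sum_const]
    apply sum_congr rfl
    intro y hy
    have := T.rk_dn x y ((T.mem_up x y).mp hy)
    unfold ind
    rw [if_pos (by omega)]
  · apply sum_eq_zero
    intro y hy
    have := T.rk_dn x y ((T.mem_up x y).mp hy)
    unfold ind
    rw [if_neg (by omega)]

lemma U_ind_apply (n : ℕ) (x : P) : T.U (T.ind n) x =
    if T.rk x = n + 1 then ((T.dn x).card : ℝ) else 0 := by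
  rw [Uop_apply]
  split_ifs with h
  · rw [← nsmul_one, ← sum_const]
    apply sum_congr rfl
    intro y hy
    have := T.rk_dn y x hy
    unfold ind
    rw [if_pos (by omega)]
  · apply sum_eq_zero
    intro y hy
    have := T.rk_dn y x hy
    unfold ind
    rw [if_neg (by omega)]

lemma D_ind_one : T.D (T.ind 1) = (T.r : ℝ) • T.ind 0 := by
  ext x
  rw [T.D_ind_apply 0 x]
  simp only [Pi.smul_apply, smul_eq_mul, ind]
  split_ifs with h
  · have h1 : T.dn x = ∅ := by
      rw [Finset.eq_empty_iff_forall_notMem]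
      intro y hy
      have := T.rk_dn y x hy
      omega
    rw [T.card_up, h1]
    simp
  · simp

lemma D_ind_add_two (n : ℕ) : T.D (T.ind (n + 2)) = (T.r : ℝ) • T.ind (n + 1) + T.U (T.ind n) := by
  ext x
  rw [T.D_ind_apply (n + 1) x]
  simp only [Pi.add_apply, Pi.smul_apply, smul_eq_mul]
  rw [T.U_ind_apply n x]
  unfold ind
  split_ifs with h
  · rw [T.card_up]; push_cast; ring
  · simp

/-- the components of the indicator functions in the kernels of `D` -/
noncomputable def a : ℕ → (P → ℝ)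
  | m => T.ind m - ∑ i : Fin m, al T.r (m - i) • (T.U ^ (m - i.val)) (a i.val)
termination_by m => m
decreasing_by exact i.2

lemma ind_eq (m : ℕ) : T.ind m = ∑ i ∈ range (m + 1), al T.r (m - i) • (T.U ^ (m - i)) (T.a i) := by
  rw [sum_range_succ, Nat.sub_self, pow_zero]
  conv_rhs => rw [show al (T.r : ℝ) 0 = 1 from by rw [al]]
  rw [a, ← Fin.sum_univ_eq_sum_range (fun i => al T.r (m - i) • (T.U ^ (m - i)) (T.a i)) m]
  simp

lemma rne : (T.r : ℝ) ≠ 0 := by
  have := T.hr
  positivity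

lemma D_Upow {f : P → ℝ} (hf : T.D f = 0) (s : ℕ) :
    T.D ((T.U ^ (s + 1)) f) = (((s : ℝ) + 1) * T.r) • (T.U ^ s) f := by
  induction s with
  | zero =>
    simp only [zero_add, pow_one, pow_zero, Nat.cast_zero]
    rw [T.DU, hf, map_zero]
    simp
  | succ s ih =>
    have h1 : (T.U ^ (s + 1 + 1)) f = T.U ((T.U ^ (s + 1)) f) := by
      rw [pow_succ']; rfl
    rw [h1, T.DU, ih, map_smul]
    have h2 : T.U ((T.U ^ s) f) = (T.U ^ (s + 1)) f := by
      rw [pow_succ']; rfl
    rw [h2, ← add_smul]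
    congr 1
    push_cast
    ring

lemma D_a (m : ℕ) : T.D (T.a m) = 0 := by
  induction m using Nat.strong_induction_on with
  | _ m ih =>
    have hsub : T.a m = T.ind m - ∑ i ∈ range m, al T.r (m - i) • (T.U ^ (m - i)) (T.a i) := by
      rw [T.ind_eq m, sum_range_succ, Nat.sub_self, pow_zero]
      rw [show al (T.r : ℝ) 0 = 1 from by rw [al]]
      simp
    rw [hsub, map_sub, map_sum]
    rcases m with _ | _ | n
    · rw [T.D_ind_zero]; simp
    · rw [T.D_ind_one]
      simp only [zero_add, range_one, sum_singleton, Nat.sub_zero]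
      rw [show al (T.r : ℝ) 1 = 1 from by rw [al], one_smul, T.D_Upow (ih 0 (by omega)) 0]
      have h0 : T.ind 0 = T.a 0 := by
        rw [T.ind_eq 0]
        simp [show al (T.r : ℝ) 0 = 1 from by rw [al]]
      rw [h0]
      simp
    · have h1 : ∀ i ∈ range (n + 2), T.D (al T.r (n + 1 + 1 - i) • (T.U ^ (n + 1 + 1 - i)) (T.a i)) =
          (al T.r (n + 1 + 1 - i) * ((((n + 1 - i : ℕ) : ℝ) + 1) * T.r)) • (T.U ^ (n + 1 - i)) (T.a i) := by
        intro i hi
        rw [mem_range] at hi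
        rw [map_smul]
        have h2 : n + 1 + 1 - i = (n + 1 - i) + 1 := by omega
        rw [h2, T.D_Upow (ih i (by omega)), smul_smul]
      rw [sum_congr rfl h1, T.D_ind_add_two, T.ind_eq (n + 1), T.ind_eq n, map_sum, smul_sum,
        sum_range_succ, sum_range_succ (n := n + 1)]
      have h3 : ∀ i ∈ range (n + 1),
          (al T.r (n + 1 + 1 - i) * ((((n + 1 - i : ℕ) : ℝ) + 1) * T.r)) • (T.U ^ (n + 1 - i)) (T.a i) =
          (T.r : ℝ) • al T.r (n + 1 - i) • (T.U ^ (n + 1 - i)) (T.a i) +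
            T.U (al T.r (n - i) • (T.U ^ (n - i)) (T.a i)) := by
        intro i hi
        rw [mem_range] at hi
        obtain ⟨s, hs⟩ : ∃ s, n = i + s := ⟨n - i, by omega⟩
        subst hs
        have e1 : i + s + 1 + 1 - i = s + 2 := by omega
        have e2 : i + s + 1 - i = s + 1 := by omega
        have e3 : i + s - i = s := by omega
        rw [e1, e2, e3, map_smul]
        have h4 : T.U ((T.U ^ s) (T.a i)) = (T.U ^ (s + 1)) (T.a i) := by
          rw [pow_succ']; rfl
        rw [h4, smul_smul, ← add_smul]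
        congr 1
        rw [← al_succ T.rne s]
        push_cast
        ring
      rw [sum_congr rfl h3, sum_add_distrib]
      have e4 : n + 1 + 1 - (n + 1) = 1 := by omega
      have e5 : n + 1 - (n + 1) = 0 := by omega
      rw [e4, e5, show al (T.r : ℝ) 1 = 1 from by rw [al], show al (T.r : ℝ) 0 = 1 from by rw [al]]
      simp only [Nat.cast_zero, zero_add, one_mul, one_smul, pow_zero]
      abel

lemma ip_a_U (i : ℕ) (g : P → ℝ) : T.ip (i + 1) (T.a (i + 1)) (T.U g) = 0 := by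
  rw [T.ip_comm, T.adj, T.D_a, T.ip_zero_right]

lemma key (i s : ℕ) : T.ip (i + s) ((T.U ^ s) (T.a i)) (T.ind (i + s)) =
    ga T.r s * T.ip i (T.a i) (T.ind i) := by
  induction s using Nat.strong_induction_on with
  | _ s ih =>
    rcases s with _ | _ | t
    · simp [show ga (T.r : ℝ) 0 = 1 from by rw [ga]]
    · simp only [zero_add, pow_one]
      rw [T.adj, show ga (T.r : ℝ) 1 = T.r from by rw [ga]]
      rcases i with _ | j
      · rw [zero_add, T.D_ind_one, T.ip_smul_right]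
      · rw [show j + 1 + 1 = j + 2 from rfl, T.D_ind_add_two, T.ip_add_right, T.ip_smul_right, T.ip_a_U,
          add_zero]
    · have h1 : (T.U ^ (t + 1 + 1)) (T.a i) = T.U ((T.U ^ (t + 1)) (T.a i)) := by
        rw [pow_succ']; rfl
      rw [h1, show i + (t + 1 + 1) = (i + (t + 1)) + 1 by ring, T.adj,
        show i + (t + 1) + 1 = (i + t) + 2 by ring, T.D_ind_add_two, T.ip_add_right, T.ip_smul_right,
        show i + t + 1 = i + (t + 1) by ring, ih (t + 1) (by omega)]
      have h2 : T.ip (i + (t + 1)) ((T.U ^ (t + 1)) (T.a i)) (T.U (T.ind (i + t))) =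
          ((t : ℝ) + 1) * T.r * (ga T.r t * T.ip i (T.a i) (T.ind i)) := by
        rw [T.ip_comm, show i + (t + 1) = (i + t) + 1 by ring, T.adj, T.D_Upow (T.D_a i), T.ip_smul_right,
          T.ip_comm, ih t (by omega)]
      rw [h2, ga]
      ring

/-- the numbers `e_i` -/
noncomputable def e (i : ℕ) : ℝ := T.ip i (T.a i) (T.ind i)

lemma e_eq (i : ℕ) : T.e i = T.ip i (T.a i) (T.a i) := by
  unfold e
  conv_lhs => rw [T.ind_eq i]
  rw [T.ip_sum_right, sum_range_succ, Nat.sub_self, pow_zero]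
  rw [show al (T.r : ℝ) 0 = 1 from by rw [al], one_smul, sum_eq_zero]
  · simp
  · intro j hj
    rw [mem_range] at hj
    rcases i with _ | i
    · omega
    · have h1 : (T.U ^ (i + 1 - j)) (T.a j) = T.U ((T.U ^ (i - j)) (T.a j)) := by
        rw [show i + 1 - j = (i - j) + 1 by omega, pow_succ']; rfl
      rw [T.ip_smul_right, h1, T.ip_a_U, mul_zero]

lemma e_nonneg (i : ℕ) : 0 ≤ T.e i := by
  rw [T.e_eq]
  unfold ip
  exact sum_nonneg (fun _ _ => mul_self_nonneg _)

lemma ip_ind (m : ℕ) : T.ip m (T.ind m) (T.ind m) = ((T.R m).card : ℝ) := by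
  unfold ip ind
  rw [← nsmul_one, ← sum_const]
  apply sum_congr rfl
  intro x hx
  rw [if_pos ((T.mem_R m x).mp hx), one_mul]

lemma e_zero : T.e 0 = ((T.R 0).card : ℝ) := by
  have h0 : T.a 0 = T.ind 0 := by
    rw [T.ind_eq 0]
    simp [show al (T.r : ℝ) 0 = 1 from by rw [al]]
  rw [e, h0, T.ip_ind]

theorem card_R (m : ℕ) : ((T.R m).card : ℝ) = ∑ i ∈ range (m + 1), be T.r (m - i) * T.e i := by
  rw [← T.ip_ind]
  have h : T.ip m (T.ind m) (T.ind m) =
      ∑ i ∈ range (m + 1), al T.r (m - i) * T.ip m (T.ind m) ((T.U ^ (m - i)) (T.a i)) := by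
    refine (congrArg (T.ip m (T.ind m)) (T.ind_eq m)).trans ?_
    rw [T.ip_sum_right]
    exact sum_congr rfl (fun i _ => T.ip_smul_right _ _ _ _)
  rw [h]
  apply sum_congr rfl
  intro i hi
  rw [mem_range] at hi
  obtain ⟨s, rfl⟩ : ∃ s, m = i + s := ⟨m - i, by omega⟩
  rw [show i + s - i = s by omega, T.ip_comm, T.key, be, e]
  ring

end Dat

end Poset

end Pool.Agent.H157R3.DP
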