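import Pool.Agent.H157R3.DP.Rank

/-!
# Positivity of the coefficients of `(1 - x)^r B(x)`, `B = ∑ β_s x^s`
-/

set_option autoImplicit false

open Finset PowerSeries

namespace Pool.Agent.H157R3.DP

lemma ga_eq {r : ℝ} (hr : r ≠ 0) (s : ℕ) : ga r s = (s.factorial : ℝ) * r ^ s * al r s := by
  induction s using Nat.strong_induction_on with
  | _ s ih =>
    rcases s with _ | _ | t
    · simp [ga, al]
    · simp [ga, al]
    · rw [ga, ih (t + 1) (by omega), ih t (by omega)]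
      have h := al_succ hr t
      have h1 : al r (t + 2) = (r * al r (t + 1) + al r t) / ((t + 2) * r) := by rw [al]
      have h2 : ((t : ℝ) + 2) ≠ 0 := by positivity
      rw [h1, Nat.factorial_succ (t + 1), Nat.factorial_succ t]
      push_cast
      field_simp
      ring

lemma be_rec {r : ℝ} (hr : r ≠ 0) (n : ℕ) : ((n : ℝ) + 3) * be r (n + 3) =
    ((n : ℝ) + 2 + r) * be r (n + 2) + ((n : ℝ) + 2 + r) * be r (n + 1) - ((n : ℝ) + 1) * be r n := by
  unfold be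
  rw [ga_eq hr, ga_eq hr, ga_eq hr, ga_eq hr]
  have h1 : al r (n + 2) = (r * al r (n + 1) + al r n) / ((n + 2) * r) := by rw [al]
  have h2 : al r (n + 3) = (r * al r (n + 2) + al r (n + 1)) / ((((n + 1 : ℕ) : ℝ) + 2) * r) := by rw [al]
  have h3 : ((n : ℝ) + 2) ≠ 0 := by positivity
  have h4 : ((n : ℝ) + 3) ≠ 0 := by positivity
  have h5 : (((n + 1 : ℕ) : ℝ) + 2) = (n : ℝ) + 3 := by push_cast; ring
  rw [h5] at h2
  rw [h2, h1, Nat.factorial_succ (n + 2), Nat.factorial_succ (n + 1), Nat.factorial_succ n]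
  push_cast
  field_simp
  ring

/-- `B = ∑ β_s x^s` -/
noncomputable def BB (r : ℝ) : PowerSeries ℝ := PowerSeries.mk (be r)

lemma be_zero (r : ℝ) : be r 0 = 1 := by simp [be, al, ga]
lemma be_one (r : ℝ) : be r 1 = r := by simp [be, al, ga]
lemma be_two {r : ℝ} (hr : r ≠ 0) : be r 2 = (r + 1) ^ 2 / 2 := by
  simp only [be, al, ga]
  push_cast
  field_simp
  ring

lemma coeff_cub (F : PowerSeries ℝ) (n : ℕ) :
    coeff (n + 3) ((1 - X - X ^ 2 + X ^ 3) * F) =
      coeff (n + 3) F - coeff (n + 2) F - coeff (n + 1) F + coeff n F := by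
  have e1 : (1 - X - X ^ 2 + X ^ 3) * F = F - X ^ 1 * F - X ^ 2 * F + X ^ 3 * F := by ring
  rw [e1]
  simp only [map_add, map_sub, coeff_X_pow_mul']
  rw [if_pos (by omega), if_pos (by omega), if_pos (by omega)]
  simp

lemma coeff_cub0 (F : PowerSeries ℝ) : coeff 0 ((1 - X - X ^ 2 + X ^ 3) * F) = coeff 0 F := by
  have e1 : (1 - X - X ^ 2 + X ^ 3) * F = F - X ^ 1 * F - X ^ 2 * F + X ^ 3 * F := by ring
  rw [e1]
  simp only [map_add, map_sub, coeff_X_pow_mul']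
  simp

lemma coeff_cub1 (F : PowerSeries ℝ) :
    coeff 1 ((1 - X - X ^ 2 + X ^ 3) * F) = coeff 1 F - coeff 0 F := by
  have e1 : (1 - X - X ^ 2 + X ^ 3) * F = F - X ^ 1 * F - X ^ 2 * F + X ^ 3 * F := by ring
  rw [e1]
  simp only [map_add, map_sub, coeff_X_pow_mul']
  simp

lemma coeff_cub2 (F : PowerSeries ℝ) :
    coeff 2 ((1 - X - X ^ 2 + X ^ 3) * F) = coeff 2 F - coeff 1 F - coeff 0 F := by
  have e1 : (1 - X - X ^ 2 + X ^ 3) * F = F - X ^ 1 * F - X ^ 2 * F + X ^ 3 * F := by ring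
  rw [e1]
  simp only [map_add, map_sub, coeff_X_pow_mul']
  simp

lemma coeff_quad (a b c : ℝ) (F : PowerSeries ℝ) (n : ℕ) :
    coeff (n + 2) ((C a + C b * X + C c * X ^ 2) * F) =
      a * coeff (n + 2) F + b * coeff (n + 1) F + c * coeff n F := by
  have e1 : (C a + C b * X + C c * X ^ 2) * F = C a * F + C b * (X ^ 1 * F) + C c * (X ^ 2 * F) := by ring
  rw [e1]
  simp only [map_add, coeff_C_mul, coeff_X_pow_mul']
  rw [if_pos (by omega), if_pos (by omega)]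
  simp

lemma coeff_quad0 (a b c : ℝ) (F : PowerSeries ℝ) :
    coeff 0 ((C a + C b * X + C c * X ^ 2) * F) = a * coeff 0 F := by
  have e1 : (C a + C b * X + C c * X ^ 2) * F = C a * F + C b * (X ^ 1 * F) + C c * (X ^ 2 * F) := by ring
  rw [e1]
  simp only [map_add, coeff_C_mul, coeff_X_pow_mul']
  simp

lemma coeff_quad1 (a b c : ℝ) (F : PowerSeries ℝ) :
    coeff 1 ((C a + C b * X + C c * X ^ 2) * F) = a * coeff 1 F + b * coeff 0 F := by
  have e1 : (C a + C b * X + C c * X ^ 2) * F = C a * F + C b * (X ^ 1 * F) + C c * (X ^ 2 * F) := by ring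
  rw [e1]
  simp only [map_add, coeff_C_mul, coeff_X_pow_mul']
  simp

lemma ode_B {r : ℝ} (hr : r ≠ 0) : (1 - X - X ^ 2 + X ^ 3) * d⁄dX ℝ (BB r) =
    (C r + C (r + 1) * X + C (-1) * X ^ 2) * BB r := by
  ext n
  rcases n with _ | _ | _ | n
  · rw [coeff_cub0, coeff_quad0, coeff_derivative]
    simp only [BB, coeff_mk]
    rw [be_zero, be_one]
    simp
  · rw [coeff_cub1, coeff_quad1, coeff_derivative, coeff_derivative]
    simp only [BB, coeff_mk]
    rw [be_zero, be_one, be_two hr]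
    push_cast
    ring
  · rw [coeff_cub2, show (0 + 1 + 1 : ℕ) = 0 + 2 from rfl, coeff_quad, coeff_derivative,
      coeff_derivative, coeff_derivative]
    simp only [BB, coeff_mk]
    have h := be_rec hr 0
    norm_num at h ⊢
    linarith
  · rw [coeff_cub, show n + 3 = (n + 1) + 2 from rfl, coeff_quad, coeff_derivative,
      coeff_derivative, coeff_derivative, coeff_derivative]
    simp only [BB, coeff_mk]
    have h := be_rec hr (n + 1)
    push_cast at h ⊢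
    have e1 : n + 1 + 2 + 1 = n + 1 + 3 := by ring
    have e2 : n + 2 + 1 = n + 1 + 2 := by ring
    have e3 : n + 1 + 1 = n + 2 := by ring
    rw [e1, e2, e3] at *
    linarith

/-- `(1 - x)^r B(x)` -/
noncomputable def CC (r : ℕ) : PowerSeries ℝ := (1 - X) ^ r * BB r

/-- the logarithmic derivative of `CC r` -/
noncomputable def ss (r : ℕ) (k : ℕ) : ℝ := (if Odd k then 1 else 0) + r * k

lemma ss_nonneg (r k : ℕ) : 0 ≤ ss r k := by
  unfold ss
  split_ifs <;> positivity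

lemma ss_pos {r k : ℕ} (hr : 1 ≤ r) (hk : 1 ≤ k) : 0 < ss r k := by
  unfold ss
  have h1 : (0 : ℝ) < r * k := by
    have : 0 < r * k := Nat.mul_pos hr hk
    exact_mod_cast this
  split_ifs <;> linarith

lemma ode_S (r : ℕ) : (1 - X - X ^ 2 + X ^ 3) * PowerSeries.mk (ss r) =
    (C 0 + C ((r : ℝ) + 1) * X + C ((r : ℝ) - 1) * X ^ 2) * 1 := by
  ext n
  rcases n with _ | _ | _ | n
  · rw [coeff_cub0, coeff_quad0]
    simp [ss]
  · rw [coeff_cub1, coeff_quad1]
    simp [ss]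
    ring
  · rw [coeff_cub2, show (0 + 1 + 1 : ℕ) = 0 + 2 from rfl, coeff_quad]
    simp only [coeff_mk, ss, coeff_one]
    norm_num [Nat.odd_iff]
    ring
  · rw [coeff_cub, show n + 3 = (n + 1) + 2 from rfl, coeff_quad]
    simp only [coeff_mk, ss, coeff_one]
    have h1 : Odd (n + 1 + 2) ↔ Odd (n + 1) := by
      simp only [Nat.odd_iff]; omega
    have h2 : Odd (n + 2) ↔ Odd n := by
      simp only [Nat.odd_iff]; omega
    simp only [h1, h2]
    push_cast
    simp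
    ring

lemma ode_C {r : ℕ} (hr : 1 ≤ r) : (1 - X - X ^ 2 + X ^ 3) * d⁄dX ℝ (CC r) =
    (C 0 + C ((r : ℝ) + 1) * X + C ((r : ℝ) - 1) * X ^ 2) * CC r := by
  obtain ⟨k, rfl⟩ : ∃ k, r = k + 1 := ⟨r - 1, by omega⟩
  have h0 : ((k + 1 : ℕ) : ℝ) ≠ 0 := by positivity
  have hB : (1 - X - X ^ 2 + X ^ 3) * d⁄dX ℝ (BB ((k + 1 : ℕ) : ℝ)) =
    (C (((k + 1 : ℕ) : ℝ)) + C (((k + 1 : ℕ) : ℝ) + 1) * X + C (-1) * X ^ 2) * BB ((k + 1 : ℕ) : ℝ) := ode_B h0
  have h1 : d⁄dX ℝ (CC (k + 1)) = (1 - X) ^ (k + 1) * d⁄dX ℝ (BB ((k + 1 : ℕ) : ℝ)) -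
      C ((k + 1 : ℕ) : ℝ) * (1 - X) ^ k * BB ((k + 1 : ℕ) : ℝ) := by
    unfold CC
    rw [Derivation.leibniz, Derivation.leibniz_pow]
    simp only [map_sub, PowerSeries.derivative_X]
    have h2 : d⁄dX ℝ (1 : PowerSeries ℝ) = 0 := Derivation.map_one_eq_zero _
    rw [h2]
    simp only [smul_eq_mul, Nat.add_sub_cancel, nsmul_eq_mul]
    have h3 : ((k + 1 : ℕ) : PowerSeries ℝ) = C ((k + 1 : ℕ) : ℝ) := by
      rw [map_natCast]
    rw [h3]
    ring
  rw [h1]
  have hC1 : (C (((k + 1 : ℕ) : ℝ) + 1) : PowerSeries ℝ) = C (((k + 1 : ℕ) : ℝ)) + 1 := by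
    rw [map_add, map_one]
  have hC2 : (C (((k + 1 : ℕ) : ℝ) - 1) : PowerSeries ℝ) = C (((k + 1 : ℕ) : ℝ)) - 1 := by
    rw [map_sub, map_one]
  have hC3 : (C (-1 : ℝ) : PowerSeries ℝ) = -1 := by
    rw [map_neg, map_one]
  rw [hC1, hC3] at hB
  rw [hC1, hC2, map_zero]
  unfold CC
  linear_combination (1 - X) ^ (k + 1) * hB

lemma cub_ne : (1 - X - X ^ 2 + X ^ 3 : PowerSeries ℝ) ≠ 0 := by
  intro h
  have := congrArg (coeff 0) h
  simp at this

lemma dC {r : ℕ} (hr : 1 ≤ r) : d⁄dX ℝ (CC r) = PowerSeries.mk (ss r) * CC r := by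
  have h1 := ode_C hr
  have h2 := ode_S r
  apply mul_left_cancel₀ cub_ne
  rw [h1, ← mul_assoc, h2, mul_one]

lemma coeff_CC_zero (r : ℕ) : coeff 0 (CC r) = 1 := by
  unfold CC BB
  simp [be_zero]

lemma coeff_CC_rec {r : ℕ} (hr : 1 ≤ r) (n : ℕ) : coeff (n + 1) (CC r) * ((n : ℝ) + 1) =
    ∑ ij ∈ antidiagonal n, ss r ij.1 * coeff ij.2 (CC r) := by
  have h := congrArg (coeff n) (dC hr)
  rw [coeff_derivative, coeff_mul] at h
  simpa using h

lemma coeff_CC_nonneg {r : ℕ} (hr : 1 ≤ r) (n : ℕ) : 0 ≤ coeff n (CC r) := by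
  induction n using Nat.strong_induction_on with
  | _ n ih =>
    rcases n with _ | n
    · rw [coeff_CC_zero]; norm_num
    · have h := coeff_CC_rec hr n
      have h1 : 0 ≤ ∑ ij ∈ antidiagonal n, ss r ij.1 * coeff ij.2 (CC r) := by
        apply sum_nonneg
        intro ij hij
        rw [HasAntidiagonal.mem_antidiagonal] at hij
        exact mul_nonneg (ss_nonneg _ _) (ih ij.2 (by omega))
      rw [← h] at h1
      have h2 : (0 : ℝ) < (n : ℝ) + 1 := by positivity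
      exact nonneg_of_mul_nonneg_left h1 h2

lemma coeff_CC_pos {r : ℕ} (hr : 1 ≤ r) (n : ℕ) : 0 < coeff (n + 2) (CC r) := by
  have h := coeff_CC_rec hr (n + 1)
  have h1 : 0 < ∑ ij ∈ antidiagonal (n + 1), ss r ij.1 * coeff ij.2 (CC r) := by
    apply sum_pos'
    · intro ij _
      exact mul_nonneg (ss_nonneg _ _) (coeff_CC_nonneg hr _)
    · refine ⟨(n + 1, 0), by simp, ?_⟩
      simp only
      rw [coeff_CC_zero, mul_one]
      exact ss_pos hr (by omega)
  rw [← h] at h1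
  have h2 : (0 : ℝ) < ((n + 1 : ℕ) : ℝ) + 1 := by positivity
  exact (pos_iff_pos_of_mul_pos h1).mpr h2

end Pool.Agent.H157R3.DP
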